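import Pool.Agent.H9R2.TF.Fin
import Pool.Agent.Q204.TFM.Concl

/-!
# Reflected Thomas–Fermi density differences are not monotone in the electron number

We work in three-space with the Thomas–Fermi functional of one point nucleus of charge `Z` at the
origin (`k = 1`, `m₁ = Z δ₀`, `R₁ = 0`).  The plane is `P = {x : x 0 = -d}` with `d > 0`, and
`P* = {x : -d < x 0}` contains the nucleus.
-/

set_option autoImplicit false
open MeasureTheory

namespace Pool.Agent.Results.MP_d10cfe_mp.NotMonotone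

/-- Euclidean three-space. -/
abbrev Space := EuclideanSpace ℝ (Fin 3)

/-- `ρ ≥ 0` and `ρ ∈ L¹ ∩ L^{5/3}`. -/
def Admissible (ρ : Space → ℝ) : Prop :=
  (∀ x, 0 ≤ ρ x) ∧ Integrable ρ ∧ Integrable (fun x => ρ x ^ (5/3 : ℝ))

/-- The Thomas–Fermi functional for a point nucleus of charge `Z` at the origin. -/
noncomputable def energy (γ Z : ℝ) (ρ : Space → ℝ) : ℝ :=
  3/5 * γ * (∫ x, ρ x ^ (5/3 : ℝ)) - (∫ x, Z / ‖x‖ * ρ x)
    + 1/2 * (∫ x, ∫ y, ρ x * ρ y / ‖x - y‖)

/-- `ρ` is the Thomas–Fermi density with electron number `lam`: it minimises the functional among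
all admissible densities with integral `lam`, and it is given pointwise away from the nucleus by
the Thomas–Fermi equation with some chemical potential `μ ≥ 0`. -/
def IsTFDensity (γ Z lam : ℝ) (ρ : Space → ℝ) : Prop :=
  Admissible ρ ∧ (∫ x, ρ x) = lam ∧
  (∀ σ, Admissible σ → (∫ x, σ x) = lam → energy γ Z ρ ≤ energy γ Z σ) ∧
  ∃ μ : ℝ, 0 ≤ μ ∧ ∀ x, x ≠ 0 →
    γ * ρ x ^ (2/3 : ℝ) = max (Z / ‖x‖ - (∫ y, ρ y / ‖x - y‖) - μ) 0

/-- The mirror image in the plane `{x : x 0 = -d}`. -/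
noncomputable def mirror (d : ℝ) (x : Space) : Space := !₂[-(2 * d) - x 0, x 1, x 2]

open Pool.Agent.Helper557.TFP Pool.Agent.H9R2.TF Pool.Agent.Q204.TFM

lemma energy_smul {γ Z : ℝ} (hγ : 0 < γ) {s : Space → ℝ} (hs : ∀ x, 0 ≤ s x) :
    energy γ Z (fun x => γ ^ 3 * s x) =
      γ ^ 6 * FE (fun _ : Fin 1 => Z / γ ^ 3) (fun _ => (0 : E3)) s := by
  have e1 : ∫ x, (γ ^ 3 * s x) ^ (5/3 : ℝ) = γ ^ 5 * ∫ x, s x ^ (5/3 : ℝ) := by
    rw [← integral_const_mul]
    refine integral_congr_ae (Filter.Eventually.of_forall fun x => ?_)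
    simp only
    rw [Real.mul_rpow (by positivity) (hs x), ← Real.rpow_natCast γ 3, ← Real.rpow_mul hγ.le]
    norm_num
  have e2 : ∫ x, Z / ‖x‖ * (γ ^ 3 * s x) =
      γ ^ 6 * ∫ x, (∑ _i : Fin 1, (Z / γ ^ 3) / ‖x - (0 : E3)‖) * s x := by
    rw [← integral_const_mul]
    refine integral_congr_ae (Filter.Eventually.of_forall fun x => ?_)
    simp only [Finset.univ_unique, Finset.sum_const, Finset.card_singleton, one_smul, sub_zero]
    field_simp
  have e3 : (∫ x, ∫ y, (γ ^ 3 * s x) * (γ ^ 3 * s y) / ‖x - y‖) =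
      γ ^ 6 * ∫ x, ∫ y, s x * s y / ‖x - y‖ := by
    rw [← integral_const_mul]
    refine integral_congr_ae (Filter.Eventually.of_forall fun x => ?_)
    simp only
    rw [← integral_const_mul]
    refine integral_congr_ae (Filter.Eventually.of_forall fun y => ?_)
    simp only
    ring
  unfold energy FE
  rw [e1, e2, e3]
  ring

/-- the densities `γ³ τ`, where `τ` solves the normalised Thomas–Fermi equation -/
lemma isTF {γ Z μ : ℝ} (hγ : 0 < γ) (hμ : 0 < μ) {τ : E3 → ℝ} (h : EA (Z / γ ^ 3) μ τ) :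
    IsTFDensity γ Z (γ ^ 3 * ∫ x, τ x) (fun x => γ ^ 3 * τ x) := by
  have hA : Adm τ := adm_of_nice h.nice h.nonneg
  refine ⟨⟨fun x => mul_nonneg (by positivity) (h.nonneg x), h.nice.2.1.const_mul _, ?_⟩, ?_, ?_,
    γ ^ 3 * μ, by positivity, ?_⟩
  · refine (hA.2.2.2.const_mul ((γ ^ 3) ^ (5/3 : ℝ))).congr
      (Filter.Eventually.of_forall fun x => ?_)
    simp only
    rw [Real.mul_rpow (by positivity) (h.nonneg x)]
  · rw [integral_const_mul]
  · intro σ hσ hm
    have hσ' : AA (fun x => σ x / γ ^ 3) := by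
      refine ⟨fun x => div_nonneg (hσ.1 x) (by positivity), hσ.2.1.div_const _, ?_⟩
      refine (hσ.2.2.div_const ((γ ^ 3) ^ (5/3 : ℝ))).congr
        (Filter.Eventually.of_forall fun x => ?_)
      simp only
      rw [Real.div_rpow (hσ.1 x) (by positivity)]
    obtain ⟨τ', hτ', hae⟩ := AA_mod hσ'
    have hmass : ∫ x, τ' x = ∫ x, τ x := by
      rw [← integral_congr_ae hae, integral_div, hm]
      field_simp
    have hmin := el_min h hτ' hmass
    rw [← FE_eq, ← FE_eq, ← FE_congr hae] at hmin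
    have hσe : σ = fun x => γ ^ 3 * (σ x / γ ^ 3) := by
      funext x
      field_simp
    rw [hσe, energy_smul hγ h.nonneg, energy_smul hγ hσ'.1]
    exact mul_le_mul_of_nonneg_left hmin (by positivity)
  · intro x hx
    have hpot : ∫ y, γ ^ 3 * τ y / ‖x - y‖ = γ ^ 3 * pot τ x := by
      unfold pot
      rw [← integral_const_mul]
      refine integral_congr_ae (Filter.Eventually.of_forall fun y => ?_)
      simp only
      ring
    have h1 : γ * (γ ^ 3 * τ x) ^ (2/3 : ℝ) = γ ^ 3 * τ x ^ (2/3 : ℝ) := by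
      rw [Real.mul_rpow (by positivity) (h.nonneg x), ← Real.rpow_natCast γ 3,
        ← Real.rpow_mul hγ.le]
      norm_num
      rw [← mul_assoc]
      congr 1
      ring
    have h2 : τ x ^ (2/3 : ℝ) = max (uu (Z / γ ^ 3) μ τ x) 0 := by
      rw [h.eq' x, be_pow]
    rw [h1, h2, hpot]
    unfold uu
    rw [mul_max_of_nonneg _ _ (by positivity : (0 : ℝ) ≤ γ ^ 3), mul_zero]
    congr 1
    field_simp

/-- **The monotonicity fails for every atom.**  For every `γ > 0` and every `Z > 0` there are a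
plane `{x : x 0 = -d}` with the nucleus on the side `{x : -d < x 0}`, electron numbers
`lam' < lam < Z` and a point `x` of this side such that
`ρ_lam (x) - ρ_lam (x*) < ρ_lam' (x) - ρ_lam' (x*)`. -/
theorem result : ∀ γ Z : ℝ, 0 < γ → 0 < Z → ∃ d : ℝ, 0 < d ∧
    ∃ lam' lam : ℝ, 0 < lam' ∧ lam' < lam ∧ lam < Z ∧
    ∃ ρ' ρ : Space → ℝ, IsTFDensity γ Z lam' ρ' ∧ IsTFDensity γ Z lam ρ ∧
    ∃ x : Space, -d < x 0 ∧ x ≠ 0 ∧
      ρ x - ρ (mirror d x) < ρ' x - ρ' (mirror d x) := by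
  intro γ Z hγ hZ
  have hZ' : 0 < Z / γ ^ 3 := by positivity
  obtain ⟨μ, μ', hμ, hμμ', x, y, hx, hxy, hlt⟩ := not_mono hZ'
  have hμ' : 0 < μ' := hμ.trans hμμ'
  have hE := fam_EA hZ' hμ
  have hE' := fam_EA hZ' hμ'
  have hxp : 0 < ‖x‖ := norm_pos_iff.2 hx
  have hc : 0 < γ ^ 3 := by positivity
  refine ⟨(‖x‖ + ‖y‖) / 2, by positivity, _, _, ?_, ?_, ?_, _, _, isTF hγ hμ' hE', isTF hγ hμ hE,
    (-‖x‖) • e1, ?_, ?_, ?_⟩
  · have := mass_pos hZ' hE'
    positivity
  · exact mul_lt_mul_of_pos_left (mass_strict hZ' hE hE' hμμ') hc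
  · have := charge_pos hZ' hμ hE
    rwa [lt_div_iff₀ hc, mul_comm] at this
  · simp only [e1, PiLp.smul_apply, smul_eq_mul]
    simp
    linarith
  · intro h0
    have : ‖(-‖x‖) • e1‖ = ‖x‖ := by
      rw [neg_smul, norm_neg, norm_smul_e1 hxp.le]
    rw [h0, norm_zero] at this
    linarith
  · have hm : mirror ((‖x‖ + ‖y‖) / 2) ((-‖x‖) • e1) = (-‖y‖) • e1 := by
      ext i
      fin_cases i
      · simp [mirror, e1]
        ring
      · simp [mirror, e1]
      · simp [mirror, e1]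
    have n1 : ‖(-‖x‖) • e1‖ = ‖x‖ := by
      rw [neg_smul, norm_neg, norm_smul_e1 hxp.le]
    have n2 : ‖(-‖y‖) • e1‖ = ‖y‖ := by
      rw [neg_smul, norm_neg, norm_smul_e1 (norm_nonneg y)]
    rw [hm, radial_EA hE n1, radial_EA hE n2, radial_EA hE' n1, radial_EA hE' n2]
    have := mul_lt_mul_of_pos_left hlt hc
    linarith

end Pool.Agent.Results.MP_d10cfe_mp.NotMonotone
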